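import Pool.Agent.H70.PT.Targets

/-!
# De Mol's tag system S₂ on products of many random blocks: the law of large numbers (targets)
-/

set_option autoImplicit false

open List Finset Pool.Agent.H68.TG Pool.Agent.H75.RW Pool.Agent.H70.PT

namespace Pool.Agent.H75.PT

/-- the binomial mean -/
noncomputable def bm (n : ℕ) (U : ℕ → ℝ) : ℝ :=
  (∑ j ∈ Finset.range (n + 1), (n.choose j : ℝ) * U j) / 2 ^ n

/-- the factor of a block after `t` double passes, if it is at most `A` -/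
noncomputable def cu (t : ℕ) (A : ℝ) (j : ℕ) : ℝ :=
  if (3 : ℝ) ^ j / 2 ^ t ≤ A then 3 ^ j / 2 ^ t else 0

/-- the factor of a block after `t` double passes, if it is larger than `A` -/
noncomputable def cw (t : ℕ) (A : ℝ) (j : ℕ) : ℝ :=
  if (3 : ℝ) ^ j / 2 ^ t ≤ A then 0 else 3 ^ j / 2 ^ t

/-- the centered sum of the blocks of `0` -/
noncomputable def s1 {r : ℕ} (t : ℕ) (A : ℝ) (X Y : Fin r → ℕ) : ℝ :=
  ∑ i, 2 ^ t * ((X i / 2 ^ t : ℕ) : ℝ) * (cu t A (PP t (false, X, Y) i) - bm t (cu t A))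

/-- the centered sum of the blocks of `12` -/
noncomputable def s2 {r : ℕ} (t : ℕ) (A : ℝ) (X Y : Fin r → ℕ) : ℝ :=
  ∑ i, 2 ^ t * ((Y i / 2 ^ t : ℕ) : ℝ) * (cu t A (QQ t (false, X, Y) i) - bm t (cu t A))

/-- (TOC) all the counters of the blocks of `0`. -/
def T_TOC : Prop := ∀ (r n : ℕ) (a : Bool) (P Q : Fin r → ℕ) (g : Fin r → ℕ → ℝ),
  tot (fun P _ => ∏ i, g i (P i)) n a P Q =
    (2 ^ r) ^ n * ∏ i, ∑ j ∈ Finset.range (n + 1), (n.choose j : ℝ) * g i (P i + j)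

/-- (VRC) the variance of sums over the blocks. -/
def T_VRC : Prop := ∀ (r n : ℕ) (v : Fin r → ℝ) (B : ℝ) (U : ℕ → ℝ), (∀ i, |v i| ≤ B) →
  tot (fun P _ => (∑ i, v i * (U (P i) - bm n U)) ^ 2) n false (fun _ => 0) (fun _ => 0) ≤
    (4 ^ r) ^ n * (r * B ^ 2 * bm n (fun j => U j ^ 2)) ∧
  tot (fun _ Q => (∑ i, v i * (U (Q i) - bm n U)) ^ 2) n false (fun _ => 0) (fun _ => 0) ≤
    (4 ^ r) ^ n * (r * B ^ 2 * bm n (fun j => U j ^ 2))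

/-- (MEA) the mean over one block. -/
def T_MEA : Prop := ∀ (r t m : ℕ) (i : Fin r) (F : ℕ → ℝ), t ≤ m →
  SS r m (fun X Y => F (PP t (false, X, Y) i)) = (4 ^ m) ^ r * bm t F ∧
  SS r m (fun X Y => F (QQ t (false, X, Y) i)) = (4 ^ m) ^ r * bm t F

/-- (TAI) the factor of a block and its tail. -/
def T_TAI : Prop := ∀ (t : ℕ) (A ρ : ℝ), 0 < A → 0 < ρ →
  bm t (fun j => 3 ^ j) = 2 ^ t ∧
  bm t (cu t A) + bm t (cw t A) = 1 ∧ 0 ≤ bm t (cu t A) ∧ 0 ≤ bm t (cw t A) ∧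
  bm t (fun j => cu t A j ^ 2) ≤ A ∧
  bm t (cw t A) ≤ (((1 / 2 : ℝ) ^ (1 + ρ) + (3 / 2) ^ (1 + ρ)) / 2) ^ t / A ^ ρ

/-- (RHO) the moments of order a little above one. -/
def T_RHO : Prop := ∀ g > (0 : ℝ), ∃ ρ > (0 : ℝ), ρ ≤ 1 ∧
  ((1 / 2 : ℝ) ^ (1 + ρ) + (3 / 2) ^ (1 + ρ)) / 2 ≤ 2 ^ ((ka (3 / 4) + g) * ρ)

/-- (CHE) the inequality of Chebyshev for the centered sums. -/
def T_CHE : Prop := ∀ (r t m : ℕ) (A e : ℝ), t ≤ m → 1 ≤ r → 0 < A → 0 < e →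
  NN r m (fun X Y => e * r * 2 ^ m < |s1 t A X Y|) ≤ A / (e ^ 2 * r) * (4 ^ m) ^ r ∧
  NN r m (fun X Y => e * r * 2 ^ m < |s2 t A X Y|) ≤ A / (e ^ 2 * r) * (4 ^ m) ^ r

/-- (DEC) the decomposition of the length. -/
def T_DEC : Prop := ∀ (r t m : ℕ) (A : ℝ) (X Y : Fin r → ℕ), t ≤ m →
  (∀ i, X i < 2 ^ m) → (∀ i, Y i < 2 ^ m) →
  bm t (cu t A) + bm t (cw t A) = 1 → 0 ≤ bm t (cw t A) →
  |(LL (ru t X Y) : ℝ) - LL (false, X, Y)| ≤ |s1 t A X Y| + 2 * |s2 t A X Y| +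
    2 ^ m * ∑ i, (cw t A (PP t (false, X, Y) i) + 2 * cw t A (QQ t (false, X, Y) i)) +
    ∑ i, (2 * 3 ^ PP t (false, X, Y) i + 4 * 3 ^ QQ t (false, X, Y) i) +
    3 * r * 2 ^ m * bm t (cw t A) + 3 * r * 2 ^ t

/-- (LLA) the length after `t` double passes. -/
def T_LLA : Prop := ∀ (r t m : ℕ) (A e : ℝ), t ≤ m → 1 ≤ r → 0 < A → 0 < e →
  bm t (cw t A) ≤ e → (2 : ℝ) ^ t ≤ e * 2 ^ m →
  NN r m (fun X Y => 18 * e * r * 2 ^ m < |(LL (ru t X Y) : ℝ) - LL (false, X, Y)|) ≤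
    (2 * 2 ^ t / (e * 2 ^ m) + 2 * bm t (cw t A) / e + 2 * A / (e ^ 2 * r)) * (4 ^ m) ^ r

/-- (LLB) all numbers of double passes. -/
def T_LLB : Prop := ∀ g > (0 : ℝ), ∀ e > (0 : ℝ), ∃ c > (0 : ℝ), ∃ n₀ : ℕ, ∀ n ≥ n₀,
  ∀ m r : ℕ, (n : ℝ) ≤ (1 - e) * m → (2 : ℝ) ^ ((ka (3 / 4) + g) * n) ≤ r →
  NN r m (fun X Y => ∃ t ≤ n, e * r * 2 ^ m < |(LL (ru t X Y) : ℝ) - LL (false, X, Y)|) ≤
    2 ^ (-(c * n)) * (4 ^ m) ^ r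

/-- (TIM) the number of steps of many passes. -/
def T_TIM : Prop := ∀ (w : List (Fin 3)) (T : ℕ), 1 ≤ T →
  (∀ i < T, ∀ j ≤ ((ps^[i] w).length + 1) / 2, 2 ≤ (step^[j] (ps^[i] w)).length) →
  ∀ j ≤ ∑ i ∈ Finset.range T, ((ps^[i] w).length + 1) / 2, 2 ≤ (step^[j] w).length

/-- (LLN) the law of large numbers. -/
def T_LLN : Prop := ∀ g > (0 : ℝ), ∀ e > (0 : ℝ), ∃ c > (0 : ℝ), ∃ n₀ : ℕ, ∀ n ≥ n₀,
  ∀ m r : ℕ, (n : ℝ) ≤ (1 - e) * m → (2 : ℝ) ^ ((ka (3 / 4) + g) * n) ≤ r →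
  NN r m (fun X Y => ¬ ((∀ t ≤ n,
      (1 - e) * (wd X Y).length ≤ (ps^[2 * t] (wd X Y)).length ∧
      ((ps^[2 * t] (wd X Y)).length : ℝ) ≤ (1 + e) * (wd X Y).length) ∧
    ∀ j : ℕ, (j : ℝ) ≤ (1 - e) * n * (wd X Y).length / 2 → 2 ≤ (step^[j] (wd X Y)).length)) ≤
    2 ^ (-(c * n)) * (4 ^ m) ^ r

end Pool.Agent.H75.PT
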